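import Pool.Agent.W680.WH.Stm2
import Pool.Agent.W428.WH.Lex

/-!
# WHC-LSM: small lifts
-/

set_option autoImplicit false

open scoped ComplexConjugate InnerProductSpace
open ContinuousLinearMap Filter

namespace Pool.Agent.W366.WH.LSM

open Pool.Agent.W680.WH

theorem main (h1 : S_UNIC) (h2 : S_DRC) (h3 : S_BLA) (h4 : S_BLM) (h5 : S_INV) (h6 : S_OPA) :
    S_LSM := by
  intro ε hε
  obtain ⟨δ1, hδ1, hδ1', H1⟩ := h1 ε hε
  obtain ⟨δ2, hδ2, hδ2', H2⟩ := h2 ε hε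
  refine ⟨min δ1 δ2, lt_min hδ1 hδ2, (min_le_left _ _).trans_lt hδ1', ?_⟩
  intro r ρ hr0 hr hc ha
  obtain ⟨V, hV1, hV2, hV3, hV4, hpos, hV5⟩ := H1 r hr0 (hr.trans_le (min_le_left _ _))
  obtain ⟨d, hd1, hd2, hdε, hd3⟩ := H2 r hr0 (hr.trans_le (min_le_right _ _))
  refine ⟨V, d, ?_, hpos, hV5, hdε⟩
  exact Pool.Agent.W428.WH.Lex.hyper h3 h4 h5 h6 r hr0
    ((hr.trans_le (min_le_left _ _)).trans hδ1') V d hV1 hV2 hV3 hV4 hd1 hd2 hd3 ρ hc ha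

end Pool.Agent.W366.WH.LSM
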