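import Pool.Agent.W680.WH.Stm

/-!
# WHH-OPC: coordinates with respect to the weighted basis
-/

set_option autoImplicit false

open scoped ComplexConjugate InnerProductSpace
open ContinuousLinearMap Filter

namespace Pool.Agent.W366.WHOPC

open Pool.Agent.W680.WH

lemma sq_pos (n : ℤ) : 0 < Real.sqrt (om n) := Real.sqrt_pos.2 (om_pos n)

lemma sq_ne (n : ℤ) : ((Real.sqrt (om n) : ℝ) : ℂ) ≠ 0 := by
  exact_mod_cast (sq_pos n).ne'

lemma sq_mul (n : ℤ) : ((Real.sqrt (om n) : ℝ) : ℂ) * ((Real.sqrt (om n) : ℝ) : ℂ) = (om n : ℂ) := by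
  rw [← Complex.ofReal_mul, Real.mul_self_sqrt (om_pos n).le]

lemma co_mul (f : E) (n : ℤ) : co f n * ((Real.sqrt (om n) : ℝ) : ℂ) = f n :=
  div_mul_cancel₀ _ (sq_ne n)

lemma co_eb (n m : ℤ) : co (eb n) m = if m = n then 1 else 0 := by
  unfold co eb
  by_cases h : m = n
  · subst h
    rw [lp.single_apply_self, if_pos rfl, div_self (sq_ne m)]
  · rw [lp.single_apply_ne _ _ _ h, if_neg h, zero_div]

lemma co_Z (f : E) (n : ℤ) : co (Z f) n = co f (n - 1) := by
  unfold co Z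
  rw [wsh_apply, Real.sqrt_div (om_pos n).le, Complex.ofReal_div]
  have h1 := sq_ne n
  have h2 := sq_ne (n - 1)
  field_simp

lemma co_Zi (f : E) (n : ℤ) : co (Zi f) n = co f (n + 1) := by
  unfold co Zi
  rw [wsh_apply, Real.sqrt_div (om_pos n).le, Complex.ofReal_div, sub_neg_eq_add]
  have h1 := sq_ne n
  have h2 := sq_ne (n + 1)
  field_simp

lemma ne1 (n : ℤ) : (4 * (n : ℂ) - 3) ≠ 0 := by
  have h : (4 * n - 3 : ℤ) ≠ 0 := by omega
  exact_mod_cast h

lemma ne2 (n : ℤ) : (4 * (n : ℂ) - 1) ≠ 0 := by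
  have h : (4 * n - 1 : ℤ) ≠ 0 := by omega
  exact_mod_cast h

lemma om_rat (n : ℤ) : (om n : ℂ) = (om (n - 1) : ℂ) * ((4 * (n : ℂ) - 1) / (4 * (n : ℂ) - 3)) := by
  have h := om_succ (n - 1)
  rw [sub_add_cancel] at h
  rw [h]
  push_cast
  congr 2 <;> ring

lemma co_Z2 (f : E) (n : ℤ) :
    co (Z2 f) n = ((4 * (n : ℂ) - 3) / (4 * (n : ℂ) - 1)) * co f (n - 1) := by
  unfold co Z2
  rw [wsh_apply, Real.sqrt_div (om_pos _).le, Complex.ofReal_div]
  have h1 := sq_ne n
  have h2 := sq_ne (n - 1)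
  have h3 := ne1 n
  have h4 := ne2 n
  have h5 := om_rat n
  rw [← sq_mul n, ← sq_mul (n - 1)] at h5
  field_simp
  field_simp at h5
  rw [pow_two, pow_two] at *
  linear_combination (-(f (n - 1))) * h5

lemma norm_term (f : E) (n : ℤ) : om n * ‖co f n‖ ^ 2 = ‖f n‖ ^ 2 := by
  rw [← co_mul f n, norm_mul, mul_pow, Complex.norm_real, Real.norm_of_nonneg (sq_pos n).le,
    Real.sq_sqrt (om_pos n).le, mul_comm]

lemma inner_term (f g : E) (n : ℤ) :
    (om n : ℂ) * (conj (co f n) * co g n) = ⟪f n, g n⟫_ℂ := by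
  rw [RCLike.inner_apply, ← co_mul f n, ← co_mul g n, map_mul, Complex.conj_ofReal, ← sq_mul n]
  ring

lemma co_ext (f g : E) (h : ∀ n, co f n = co g n) : f = g := by
  ext n
  rw [← co_mul f n, ← co_mul g n, h n]

lemma co_smul_eb (f : E) (n : ℤ) : co f n • eb n = lp.single 2 n (f n) := by
  unfold eb
  rw [← lp.single_smul, smul_eq_mul, co_mul]

lemma hasSum_eb (f : E) : HasSum (fun n => co f n • eb n) f := by
  have h := lp.hasSum_single (p := 2) (by norm_num) f
  simp only [co_smul_eb]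
  exact h

lemma dense_eb : Dense ((Submodule.span ℂ (Set.range eb) : Submodule ℂ E) : Set E) := by
  intro f
  refine mem_closure_of_tendsto (hasSum_eb f) (Eventually.of_forall fun s => ?_)
  exact Submodule.sum_mem _ fun n _ =>
    Submodule.smul_mem _ _ (Submodule.subset_span (Set.mem_range_self n))

lemma op_ext (A B : E →L[ℂ] E) (h : ∀ n, A (eb n) = B (eb n)) : A = B := by
  ext1 f
  have hA := A.hasSum (hasSum_eb f)
  have hB := B.hasSum (hasSum_eb f)
  have he : (fun n => A (co f n • eb n)) = fun n => B (co f n • eb n) := by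
    funext n
    rw [map_smul, map_smul, h n]
  rw [he] at hA
  exact hA.unique hB

lemma inner_eb (n : ℤ) (f : E) : ⟪eb n, f⟫_ℂ = (om n : ℂ) * co f n := by
  unfold eb
  rw [lp.inner_single_left, RCLike.inner_apply, Complex.conj_ofReal, ← co_mul f n, ← sq_mul n]
  ring

lemma exists_co (a : ℤ → ℂ) (h : Summable fun n => om n * ‖a n‖ ^ 2) :
    ∃ f : E, ∀ n, co f n = a n := by
  have hm : Memℓp (fun n => a n * ((Real.sqrt (om n) : ℝ) : ℂ)) 2 := by
    rw [memℓp_gen_iff (by norm_num)]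
    refine h.congr fun n => ?_
    rw [ENNReal.toReal_ofNat, Real.rpow_ofNat, norm_mul, mul_pow, Complex.norm_real,
      Real.norm_of_nonneg (sq_pos n).le, Real.sq_sqrt (om_pos n).le, mul_comm]
  refine ⟨⟨_, hm⟩, fun n => ?_⟩
  unfold co
  exact mul_div_cancel_right₀ _ (sq_ne n)

lemma comm_Zi (h1 : S_OPA) (A : E →L[ℂ] E) (h : A * Z = Z * A) : A * Zi = Zi * A := by
  obtain ⟨⟨e1, e2, -, -⟩, -⟩ := h1
  calc A * Zi = (Zi * Z) * (A * Zi) := by rw [e2, one_mul]
    _ = Zi * (Z * A) * Zi := by simp only [mul_assoc]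
    _ = Zi * (A * Z) * Zi := by rw [h]
    _ = Zi * A * (Z * Zi) := by simp only [mul_assoc]
    _ = Zi * A := by rw [e1, mul_one]

lemma co_A_eb (h1 : S_OPA) (A : E →L[ℂ] E) (h : A * Z = Z * A) (n : ℤ) :
    ∀ k : ℤ, co (A (eb n)) k = co (A (eb 0)) (k - n) := by
  have hi := comm_Zi h1 A h
  obtain ⟨-, -, ⟨b1, b2, -⟩, -⟩ := h1
  have s1 : ∀ m : ℤ, A (eb (m + 1)) = Z (A (eb m)) := fun m => by
    rw [← b1 m]
    exact congrArg (fun T : E →L[ℂ] E => T (eb m)) h
  have s2 : ∀ m : ℤ, A (eb (m - 1)) = Zi (A (eb m)) := fun m => by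
    rw [← b2 m]
    exact congrArg (fun T : E →L[ℂ] E => T (eb m)) hi
  induction n using Int.induction_on with
  | zero => intro k; rw [sub_zero]
  | succ i ih =>
    intro k
    rw [s1, co_Z, ih]
    congr 1
    ring
  | pred i ih =>
    intro k
    rw [s2, co_Zi, ih]
    congr 1
    ring

lemma det0 (h1 : S_OPA) (A B : E →L[ℂ] E) (hA : A * Z = Z * A) (hB : B * Z = Z * B)
    (h : A (eb 0) = B (eb 0)) : A = B := by
  refine op_ext A B fun n => co_ext _ _ fun k => ?_
  rw [co_A_eb h1 A hA, co_A_eb h1 B hB, h]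

lemma hasSum_A (h1 : S_OPA) (A : E →L[ℂ] E) (hA : A * Z = Z * A) (f : E) (k : ℤ) :
    HasSum (fun n => co f n * co (A (eb 0)) (k - n)) (co (A f) k) := by
  have h := ((innerSL ℂ (eb k)) ∘L A).hasSum (hasSum_eb f)
  have e : (fun n => ((innerSL ℂ (eb k)) ∘L A) (co f n • eb n)) =
      fun n => (om k : ℂ) * (co f n * co (A (eb 0)) (k - n)) := by
    funext n
    rw [map_smul, ContinuousLinearMap.comp_apply, innerSL_apply_apply, inner_eb,
      co_A_eb h1 A hA, smul_eq_mul]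
    ring
  rw [e, ContinuousLinearMap.comp_apply, innerSL_apply_apply, inner_eb] at h
  have hne : (om k : ℂ) ≠ 0 := by exact_mod_cast (om_pos k).ne'
  exact (hasSum_mul_left_iff hne).1 h

lemma comm_all (h1 : S_OPA) (A B : E →L[ℂ] E) (hA : A * Z = Z * A) (hB : B * Z = Z * B) :
    A * B = B * A := by
  refine det0 h1 _ _ ?_ ?_ ?_
  · rw [mul_assoc, hB, ← mul_assoc, hA, mul_assoc]
  · rw [mul_assoc, hA, ← mul_assoc, hB, mul_assoc]
  · refine co_ext _ _ fun k => ?_
    have e1 := hasSum_A h1 A hA (B (eb 0)) k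
    have e2 := hasSum_A h1 B hB (A (eb 0)) k
    have e3 := (Equiv.subLeft k).hasSum_iff.2 e1
    have e4 : ((fun n => co (B (eb 0)) n * co (A (eb 0)) (k - n)) ∘ (Equiv.subLeft k)) =
        fun n => co (A (eb 0)) n * co (B (eb 0)) (k - n) := by
      funext n
      simp only [Function.comp_apply, Equiv.subLeft_apply, sub_sub_cancel]
      ring
    rw [e4] at e3
    exact e3.unique e2

theorem main (h1 : S_OPA) : S_OPC := by
  refine ⟨co_eb, co_Z, co_Zi, co_Z2, fun f g n => ?_, fun c f n => ?_, fun f => ?_, fun f => ?_,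
    co_ext, inner_eb, fun f g => ?_, fun f g => ?_, exists_co, op_ext, dense_eb, hasSum_eb,
    comm_all h1, det0 h1⟩
  · unfold co
    rw [lp.coeFn_add, Pi.add_apply, add_div]
  · unfold co
    rw [lp.coeFn_smul, Pi.smul_apply, smul_eq_mul, mul_div_assoc]
  · simp only [norm_term]
    exact E_norm_sq f
  · simp only [norm_term]
    exact E_summable f
  · simp only [inner_term]
    exact lp.inner_eq_tsum f g
  · simp only [inner_term]
    exact lp.summable_inner f g

end Pool.Agent.W366.WHOPC
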